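import Pool.Agent.Run7.h947.IW.Split

/-!
# A gap for the ranks of the groups `X` mod `p` in the cyclotomic `ℤ_p`-extension

`Qb` is an algebraic closure of `ℚ`, number fields are finite subextensions of `Qb / ℚ`, and `p` is an
odd prime. For a number field `F` let `r(F)` be the order of the Galois group of the maximal abelian
extension of `F` of exponent `p` which is unramified everywhere and in which all primes above `p` split
completely, so `log_p r(F)` is the `p`-rank of the class group of `F` modulo the classes of the primes
above `p`. `DegLeI p (splitAbove p) F C` says `r(F) ≤ C`. The layers `F R` of the cyclotomic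
`ℤ_p`-extension of `F` are given by the layers `R` of the one of `ℚ` (`IsLayer`), and the group `X` of `F`
is finitely generated over `ℤ_p` if and only if the `r(F R)` are bounded (`XFinite`).

Let `K / ℚ` be a finite Galois extension and let `𝓔` be a set of subfields of `K` such that each simple
`𝔽_p`-representation of `Gal(K/ℚ)` of dimension less than `d` has a nonzero vector fixed by `Gal(K/E)`, for
some `E` in `𝓔`. Let `R ≤ R'` be layers, and let the degree of `R` be at least the largest power of `p`
which divides `[K : ℚ]`. If

  `r(K R') < p ^ (d ([K R' : K] - [K R : K])) r(K R)`,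

that is, if the ranks grow by less than `d ([K R' : K] - [K R : K])`, then `X` is finitely generated for
`K` if and only if it is for all `E` in `𝓔`.

So if `X` is finitely generated for all `E` in `𝓔`, then either it is for `K`, or the ranks of the
layers `K R_n` grow by at least `d ([K R_n : K] - [K R_m : K])` for all large `m ≤ n`.

For example let `d` be the least dimension of a simple representation of `Gal(K/ℚ)` over `𝔽_p` on which
the commutator subgroup does not act trivially; then `𝓔 = {K^ab}` is allowed. For this `𝓔` the theorem of
Ferrero and Washington (not used here) gives: if `X` is not finitely generated for `K` then the ranks grow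
at least by this rate; for a Galois group `S_n` or `A_n`, `n ≥ 7`, one has `d ≥ n - 2`.

Proof. Let `V` be the module of a high layer `K S`, `T = γ - 1` for a generator `γ` of the group of
`K S / K`, and `q = [K R : K]`, `q' = [K R' : K]`. The modules of `K R` and `K R'` are `V / Y` and
`V / T ^ (q' - q) Y` for some submodule `Y` which contains `T ^ q V`. If the rank grows by less than
`d (q' - q)`, then the kernel of `T` on `T ^ (q' - q - 1) Y` has dimension less than `d`, so all simple
quotients of `V' = T ^ (q' - 1) V` over `Gal(K S/ℚ)` are representations of `Gal(K/ℚ)` of dimension less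
than `d`, so they have nonzero coinvariants for some `E` in `𝓔`. As the coinvariants of `V'` are
quotients of those of `V`, which are bounded, `V'` is bounded, and so is `V / V'`.
-/

set_option autoImplicit false

namespace Pool.Agent.Results.MP_d0239a_nt.NonabelianRankCriterion

open IntermediateField Module Pool.Agent.Q60.MU Pool.Agent.W5h77.MB Run7.h947.IW

/-- `K / ℚ` is a finite Galois extension. -/
def IsFiniteGalois (K : IntermediateField ℚ Qb) : Prop := FiniteDimensional ℚ K ∧ IsGalois ℚ K

/-- The abelian extensions of exponent `p` of the layers `F R` which are unramified everywhere and in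
which all primes above `p` split completely have bounded degrees. -/
def XFinite (p : ℕ) (F : IntermediateField ℚ Qb) : Prop := MuI p (splitAbove p) F

/-- `[K R : K]` -/
noncomputable def deg (K R : IntermediateField ℚ Qb) : ℕ := finrank ℚ ↥(K ⊔ R) / finrank ℚ K

/-- `r(K R') ≤ C`, `r(K R) ≥ E + 1` and `C < p ^ (d ([K R' : K] - [K R : K])) (E + 1)`. -/
def SmallGrowth (p d : ℕ) (K R R' : IntermediateField ℚ Qb) : Prop :=
  ∃ C E, DegLeI p (splitAbove p) (K ⊔ R') C ∧ ¬ DegLeI p (splitAbove p) (K ⊔ R) E ∧
    C < p ^ (d * (deg K R' - deg K R)) * (E + 1)

theorem result (p : ℕ) (hp2 : p ≠ 2) [Fact p.Prime] (K : IntermediateField ℚ Qb) (hK : IsFiniteGalois K)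
    (𝓔 : Set (IntermediateField ℚ Qb)) (h𝓔 : ∀ E ∈ 𝓔, E ≤ K) (d : ℕ) (hdet : DetectsBelow p d K 𝓔)
    (m n : ℕ) (R R' : IntermediateField ℚ Qb) (hR : IsLayer p m R) (hR' : IsLayer p n R') (hRR : R ≤ R')
    (hm : ¬ p ^ (m + 1) ∣ finrank ℚ K) (h : SmallGrowth p d K R R') :
    XFinite p K ↔ ∀ E ∈ 𝓔, XFinite p E := by
  obtain ⟨hKf, hKg⟩ := hK
  obtain ⟨C, E, hC, hE, hCE⟩ := h
  exact gap hp2 (split_conj p) (split_le p) K 𝓔 h𝓔 hdet hR hR' hRR (split_total hp2 K hR hm) hC hE hCE

end Pool.Agent.Results.MP_d0239a_nt.NonabelianRankCriterion
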