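import Pool.Agent.Run7.h759.UD.Bridge

/-!
# The split form of Iwasawa's conjecture `μ = 0` and everywhere unramified extensions of prime degree

`Qb` is an algebraic closure of `ℚ`, and number fields are finite subextensions of `Qb / ℚ`. For a
number field `F` and an odd prime `p`, `MuNull p (SplitAt p) F` says that the degrees of the elementary
abelian `p`-extensions of the layers `F R` of the cyclotomic `ℤ_p`-extension of `F` which are unramified and in which
the primes above `p` split completely are bounded, that is, `X` is finitely generated over `ℤ_p`.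

The conjecture for all number fields is equivalent to its relative form for the extensions `N / M` of
prime degree `ℓ ≠ p` which are Galois and unramified at all places, where `N / ℚ` is Galois and all primes
which ramify in `N / ℚ`, and all primes above a given number `m` (for example above `p`), split completely in `N / M`. For
each such extension it is enough to know that the relative part of one layer is small compared with the degree
of the layer. The same holds inside classes of fields.
-/

set_option autoImplicit false

namespace Pool.Agent.Results.MP_d0239a_nt.UnramifiedSteps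

open Pool.Agent.Run7.h759.UD
open Run7.h947.IW (splitAbove split_conj)

theorem result (p : ℕ) [Fact p.Prime] (hp2 : p ≠ 2) (m : ℕ) (hm : m ≠ 0) :
    (∀ k : Fld, IsNF k → GalOver ⊥ k → MuNull p (SplitAt p) k →
      ((∀ F : Fld, IsNF F → MuNull p (SplitAt p) F) ↔
        ∀ ℓ M N, IsStep p m ⊥ k (fun _ => True) ℓ M N → RelMuNull p (SplitAt p) M N) ∧
      ((∀ F : Fld, IsNF F → MuNull p (SplitAt p) F) ↔
        ∀ ℓ M N, IsStep p m ⊥ k (fun _ => True) ℓ M N → OneSmall p (SplitAt p) ℓ M N)) ∧
    MuNull p (SplitAt p) ⊥ ∧
    ∀ (a k : Fld) (Q : Fld → Prop), IsClass p a k Q →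
      (MuNullOn p (SplitAt p) a k Q ↔ MuNull p (SplitAt p) k ∧
        ∀ ℓ M N, IsStep p m a k Q ℓ M N → RelMuNull p (SplitAt p) M N) ∧
      (MuNullOn p (SplitAt p) a k Q ↔ MuNull p (SplitAt p) k ∧
        ∀ ℓ M N, IsStep p m a k Q ℓ M N → OneSmall p (SplitAt p) ℓ M N) := by
  have key := fun (a k : Fld) (Q : Fld → Prop) (h : IsClass p a k Q) =>
    And.intro
      (class_rel p hp2 (describes_split p) (split_conj p) (split_le2 p) hm h)
      (class_one p hp2 (describes_split p) (split_conj p) (split_le2 p) hm h (split_le3 p))
  refine ⟨fun k hk hkg hmk => ?_, null_bot_split p, key⟩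
  have hall := all_iff p (describes_split p) hk
  obtain ⟨h1, h2⟩ := key ⊥ k (fun _ => True) ⟨bot_le, hk, hkg, trivial, fun _ _ _ _ => trivial,
    fun _ _ _ _ => trivial⟩
  exact ⟨hall.trans (h1.trans ⟨fun h => h.2, fun h => ⟨hmk, h⟩⟩),
    hall.trans (h2.trans ⟨fun h => h.2, fun h => ⟨hmk, h⟩⟩)⟩

end Pool.Agent.Results.MP_d0239a_nt.UnramifiedSteps
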